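import Pool.Agent.Lib.MP_c2536d_co.Blocks

/-!
# Problem MP_c2536d_co

A Boolean function whose Fourier weight lies, up to `ε`, on sets contained in one block of a
partition is within squared distance `O(ε)` of an OR or of an AND of Boolean functions of the
single blocks.
-/

namespace Pool.Agent.Results.MP_c2536d_co.OrAndBlocks

open Finset

/-- The cube `{±1}^m`; `ℤˣ = {1, -1}`. -/
abbrev Cube (m : ℕ) : Type := Fin m → ℤˣ

/-- Expectation under the uniform measure on the cube. -/
noncomputable def expect {m : ℕ} (g : Cube m → ℝ) : ℝ := (∑ x, g x) / 2 ^ m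

/-- The Walsh character `χ_S(x) = ∏_{i ∈ S} x_i`. -/
noncomputable def walsh {m : ℕ} (S : Finset (Fin m)) (x : Cube m) : ℝ :=
  ∏ i ∈ S, (((x i : ℤˣ) : ℤ) : ℝ)

/-- The Fourier coefficient `E[f χ_S]` of a Boolean function `f`. -/
noncomputable def fourierCoeff {m : ℕ} (f : Cube m → ℤˣ) (S : Finset (Fin m)) : ℝ :=
  expect (fun x => (((f x : ℤˣ) : ℤ) : ℝ) * walsh S x)

/-- `I` is a partition of `Fin m` into `n` nonempty blocks. -/
structure IsPartition {m n : ℕ} (I : Fin n → Finset (Fin m)) : Prop where
  nonempty : ∀ j, (I j).Nonempty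
  disjoint : ∀ i j, i ≠ j → Disjoint (I i) (I j)
  covers : ∀ v, ∃ j, v ∈ I j

/-- `f` has Fourier weight at least `1 - ε` on the sets contained in a single block. -/
def IsConcentrated {m n : ℕ} (f : Cube m → ℤˣ) (I : Fin n → Finset (Fin m)) (ε : ℝ) : Prop :=
  1 - ε ≤ ∑ S : Finset (Fin m) with ∃ j, S ⊆ I j, fourierCoeff f S ^ 2

/-- `n`-ary OR on `{±1}^n`, where `-1` stands for true and `1` for false. -/
noncomputable def orFn {n : ℕ} (y : Fin n → ℤˣ) : ℤˣ := open Classical in
  if ∃ j, y j = -1 then -1 else 1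

/-- `n`-ary AND on `{±1}^n`, where `-1` stands for true and `1` for false. -/
noncomputable def andFn {n : ℕ} (y : Fin n → ℤˣ) : ℤˣ := open Classical in
  if ∀ j, y j = -1 then -1 else 1

/-- The squared `L²` distance `E[(f - g)²]` of two Boolean functions. -/
noncomputable def sqDist {m : ℕ} (f g : Cube m → ℤˣ) : ℝ :=
  expect (fun x => ((((f x : ℤˣ) : ℤ) : ℝ) - (((g x : ℤˣ) : ℤ) : ℝ)) ^ 2)

open Pool.Agent.Lib.MP_c2536d_co

lemma fourierCoeff_eq {m : ℕ} (f : Cube m → ℤˣ) (S : Finset (Fin m)) :
    fourierCoeff f S = coeff (fun x => (((f x : ℤˣ) : ℤ) : ℝ)) S := by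
  simp only [fourierCoeff, expect, coeff, Fintype.card_fin]
  rfl

lemma sq_diff (a b : ℤˣ) : ((((a : ℤˣ) : ℤ) : ℝ) - (((b : ℤˣ) : ℤ) : ℝ)) ^ 2
    = if a = b then 0 else 4 := by
  rcases Int.units_eq_one_or a with h | h <;> rcases Int.units_eq_one_or b with h' | h' <;>
    rw [h, h'] <;> norm_num

lemma sqDist_eq {m : ℕ} (f g : Cube m → ℤˣ) :
    sqDist f g = 4 * ((Finset.univ.filter (fun x => f x ≠ g x)).card : ℝ) / 2 ^ m := by
  simp only [sqDist, expect, sq_diff]
  congr 1
  have h1 : ∀ x : Cube m, (if f x = g x then (0 : ℝ) else 4) = if f x ≠ g x then 4 else 0 := by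
    intro x
    by_cases h : f x = g x <;> simp [h]
  simp only [h1]
  rw [← Finset.sum_filter, Finset.sum_const, nsmul_eq_mul, mul_comm]

lemma sqDist_le_four {m : ℕ} (f g : Cube m → ℤˣ) : sqDist f g ≤ 4 := by
  rw [sqDist_eq, div_le_iff₀ (by positivity)]
  have h1 : ((Finset.univ.filter (fun x => f x ≠ g x)).card : ℝ) ≤ 2 ^ m := by
    have h2 : (Finset.univ.filter (fun x => f x ≠ g x)).card ≤ Fintype.card (Cube m) :=
      Finset.card_le_univ _
    have h3 : (Fintype.card (Cube m) : ℝ) = 2 ^ Fintype.card (Fin m) := card_cube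
    rw [Fintype.card_fin] at h3
    rw [← h3]
    exact_mod_cast h2
  linarith

/-- extension by `1` of a partial point -/
noncomputable def ext1 {m : ℕ} (s : Finset (Fin m)) (y : {i // i ∈ s} → ℤˣ) : Cube m :=
  fun i => if h : i ∈ s then y ⟨i, h⟩ else 1

theorem core {m n : ℕ} (hm : 1 ≤ m) (I : Fin n → Finset (Fin m)) (hI : IsPartition I) (ε : ℝ)
    (hε0 : 0 ≤ ε) (hε : ε ≤ 1 / 10000) (F : Cube m → ℝ) (hF : ∀ x, F x = 1 ∨ F x = -1)
    (hconc : 1 - ε ≤ ∑ S ∈ goodSets I, coeff F S ^ 2) (hc : 0 ≤ coeff F ∅) :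
    ((Finset.univ.filter
      (fun x => F x ≠ if ∃ j, blockPart F (I j) x < -(1 / 2) then -1 else 1)).card : ℝ)
      ≤ 2500 * (ε * 2 ^ m) := by
  choose blk hblk using hI.covers
  have hJ : Nonempty (Fin n) := ⟨blk ⟨0, hm⟩⟩
  have D := mkData F hF I hI.disjoint hJ blk hblk ε hε0 hconc hc
  have h1 := abstract_main D hε
  simp only [← blockPart_eq, card_cube, Fintype.card_fin] at h1
  convert h1

theorem result : ∃ K : ℝ, ∀ m n : ℕ, 1 ≤ m → ∀ I : Fin n → Finset (Fin m), IsPartition I →
    ∀ ε : ℝ, 0 ≤ ε → ∀ f : Cube m → ℤˣ, IsConcentrated f I ε →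
    ∃ h : (j : Fin n) → ({i // i ∈ I j} → ℤˣ) → ℤˣ,
      sqDist f (fun x => orFn (fun j => h j (fun i => x i))) ≤ K * ε ∨
      sqDist f (fun x => andFn (fun j => h j (fun i => x i))) ≤ K * ε := by
  classical
  refine ⟨40000, ?_⟩
  intro m n hm I hI ε hε0 f hf
  by_cases hε : ε ≤ 1 / 10000
  swap
  · push Not at hε
    refine ⟨fun _ _ => 1, Or.inl ?_⟩
    have := sqDist_le_four f (fun x => orFn (fun _ : Fin n => (1 : ℤˣ)))
    linarith
  set F : Cube m → ℝ := fun x => (((f x : ℤˣ) : ℤ) : ℝ) with hFdef
  have hF : ∀ x, F x = 1 ∨ F x = -1 := by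
    intro x
    simp only [hFdef]
    rcases Int.units_eq_one_or (f x) with h | h <;> rw [h] <;> norm_num
  have hconc : 1 - ε ≤ ∑ S ∈ goodSets I, coeff F S ^ 2 := by
    have h1 := hf
    unfold IsConcentrated at h1
    simp only [fourierCoeff_eq] at h1
    have h2 : goodSets I = Finset.univ.filter (fun S : Finset (Fin m) => ∃ j, S ⊆ I j) := by
      ext S
      simp only [goodSets, Finset.mem_filter]
    rw [h2]
    exact h1
  have hq : (0 : ℝ) < 2 ^ m := by positivity
  rcases le_total 0 (coeff F ∅) with hc | hc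
  · refine ⟨fun j y => if blockPart F (I j) (ext1 (I j) y) < -(1 / 2) then -1 else 1,
      Or.inl ?_⟩
    have h1 := core hm I hI ε hε0 hε F hF hconc hc
    rw [sqDist_eq, div_le_iff₀ hq]
    have h2 : Finset.univ.filter (fun x => f x ≠ orFn (fun j =>
        (if blockPart F (I j) (ext1 (I j) (fun i => x i)) < -(1 / 2) then (-1 : ℤˣ) else 1)))
        ⊆ Finset.univ.filter
          (fun x => F x ≠ if ∃ j, blockPart F (I j) x < -(1 / 2) then -1 else 1) := by
      intro x hx
      rw [Finset.mem_filter] at hx ⊢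
      refine ⟨Finset.mem_univ _, fun hcon => hx.2 ?_⟩
      have h3 : ∀ j, blockPart F (I j) (ext1 (I j) (fun i => x i)) = blockPart F (I j) x := by
        intro j
        apply blockPart_congr
        intro i hi
        simp only [ext1, dif_pos hi]
      simp only [h3, orFn]
      have h4 : (∃ j, (if blockPart F (I j) x < -(1 / 2) then (-1 : ℤˣ) else 1) = -1)
          ↔ ∃ j, blockPart F (I j) x < -(1 / 2) := by
        apply exists_congr
        intro j
        split_ifs with h
        · exact ⟨fun _ => h, fun _ => rfl⟩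
        · exact ⟨fun h' => absurd h' (by decide), fun h' => absurd h' h⟩
      by_cases h5 : ∃ j, blockPart F (I j) x < -(1 / 2)
      · rw [if_pos (h4.2 h5)]
        rw [if_pos h5] at hcon
        rcases Int.units_eq_one_or (f x) with h | h
        · simp only [hFdef] at hcon
          rw [h] at hcon
          norm_num at hcon
        · exact h
      · rw [if_neg (fun h => h5 (h4.1 h))]
        rw [if_neg h5] at hcon
        rcases Int.units_eq_one_or (f x) with h | h
        · exact h
        · simp only [hFdef] at hcon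
          rw [h] at hcon
          norm_num at hcon
    have h3 := Finset.card_le_card h2
    have h4 : ((Finset.univ.filter (fun x => f x ≠ orFn (fun j =>
        (if blockPart F (I j) (ext1 (I j) (fun i => x i)) < -(1 / 2)
          then (-1 : ℤˣ) else 1)))).card : ℝ)
        ≤ 2500 * (ε * 2 ^ m) := le_trans (by exact_mod_cast h3) h1
    linarith [mul_nonneg hε0 hq.le]
  · refine ⟨fun j y => if blockPart (fun x => - F x) (I j) (ext1 (I j) y) < -(1 / 2)
        then 1 else -1, Or.inr ?_⟩
    have hF' : ∀ x, - F x = 1 ∨ - F x = -1 := by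
      intro x
      rcases hF x with h | h <;> rw [h] <;> norm_num
    have hconc' : 1 - ε ≤ ∑ S ∈ goodSets I, coeff (fun x => - F x) S ^ 2 := by
      simp only [coeff_neg, neg_sq]
      exact hconc
    have hc' : 0 ≤ coeff (fun x => - F x) ∅ := by
      rw [coeff_neg]; linarith
    have h1 := core hm I hI ε hε0 hε (fun x => - F x) hF' hconc' hc'
    rw [sqDist_eq, div_le_iff₀ hq]
    have h2 : Finset.univ.filter (fun x => f x ≠ andFn (fun j =>
        (if blockPart (fun x => - F x) (I j) (ext1 (I j) (fun i => x i)) < -(1 / 2)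
          then (1 : ℤˣ) else -1)))
        ⊆ Finset.univ.filter
          (fun x => - F x ≠ if ∃ j, blockPart (fun x => - F x) (I j) x < -(1 / 2)
            then -1 else 1) := by
      intro x hx
      rw [Finset.mem_filter] at hx ⊢
      refine ⟨Finset.mem_univ _, fun hcon => hx.2 ?_⟩
      have h3 : ∀ j, blockPart (fun x => - F x) (I j) (ext1 (I j) (fun i => x i))
          = blockPart (fun x => - F x) (I j) x := by
        intro j
        apply blockPart_congr
        intro i hi
        simp only [ext1, dif_pos hi]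
      simp only [h3, andFn]
      have h4 : (∀ j, (if blockPart (fun x => - F x) (I j) x < -(1 / 2)
          then (1 : ℤˣ) else -1) = -1)
          ↔ ¬ ∃ j, blockPart (fun x => - F x) (I j) x < -(1 / 2) := by
        rw [not_exists]
        apply forall_congr'
        intro j
        split_ifs with h
        · exact ⟨fun h' => absurd h' (by decide), fun h' => absurd h h'⟩
        · exact ⟨fun _ => h, fun _ => rfl⟩
      by_cases h5 : ∃ j, blockPart (fun x => - F x) (I j) x < -(1 / 2)
      · rw [if_neg (fun h => h4.1 h h5)]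
        rw [if_pos h5] at hcon
        rcases Int.units_eq_one_or (f x) with h | h
        · exact h
        · simp only [hFdef] at hcon
          rw [h] at hcon
          norm_num at hcon
      · rw [if_pos (h4.2 h5)]
        rw [if_neg h5] at hcon
        rcases Int.units_eq_one_or (f x) with h | h
        · simp only [hFdef] at hcon
          rw [h] at hcon
          norm_num at hcon
        · exact h
    have h3 := Finset.card_le_card h2
    have h4 : ((Finset.univ.filter (fun x => f x ≠ andFn (fun j =>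
        (if blockPart (fun x => - F x) (I j) (ext1 (I j) (fun i => x i)) < -(1 / 2)
          then (1 : ℤˣ) else -1)))).card : ℝ)
        ≤ 2500 * (ε * 2 ^ m) := le_trans (by exact_mod_cast h3) h1
    linarith [mul_nonneg hε0 hq.le]

end Pool.Agent.Results.MP_c2536d_co.OrAndBlocks
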